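import Mathlib
import Pool.Agent.H17.SHD

set_option autoImplicit false

namespace Pool.Agent.Results.MP_47dce7_gt.Remainder
open Set Filter Topology Pool.Agent.H17.Div

universe u v

/-- Homeomorphic to a closed subspace of a power of the real line. -/
def Realcompact (X : Type u) [TopologicalSpace X] : Prop :=
  ∃ (κ : Type v) (e : X → (κ → ℝ)), IsClosedEmbedding e

/-- The Stone-Cech remainder. -/
abbrev Rem (X : Type u) [TopologicalSpace X] : Type u :=
  {p : StoneCech X // p ∉ Set.range (stoneCechUnit : X → StoneCech X)}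

variable {X : Type u} [TopologicalSpace X]

theorem ext01 (f : X → ℝ) (hf : Continuous f) :
    ∃ F : C(StoneCech X, ℝ), (∀ y, 0 ≤ F y) ∧
      ∀ x, F (stoneCechUnit x) = projIcc (0 : ℝ) 1 zero_le_one (f x) := by
  have h : Continuous fun x => projIcc (0 : ℝ) 1 zero_le_one (f x) := continuous_projIcc.comp hf
  exact ⟨⟨Subtype.val ∘ stoneCechExtend h,
    continuous_subtype_val.comp (continuous_stoneCechExtend h)⟩,
    fun y => (stoneCechExtend h y).2.1,
    fun x => congrArg Subtype.val (congrFun (stoneCechExtend_extends h) x)⟩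

theorem exists_g (hX : Realcompact.{u, v} X) {p : StoneCech X} (hp : p ∉ range stoneCechUnit) :
    ∃ g : C(StoneCech X, ℝ), (∀ y, 0 ≤ g y) ∧ g p = 0 ∧ ∀ x, 0 < g (stoneCechUnit x) := by
  obtain ⟨κ, e, he⟩ := hX
  choose H hH0 hH using fun i : κ => ext01 (fun x => 1 / (1 + |e x i|))
    (continuous_const.div (continuous_const.add
      (((continuous_apply i).comp he.continuous).abs)) fun x => by positivity)
  have hH' : ∀ i x, H i (stoneCechUnit x) = 1 / (1 + |e x i|) := fun i x => by
    rw [hH, projIcc_of_mem zero_le_one ⟨by positivity, by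
      rw [div_le_one (by positivity)]; linarith [abs_nonneg (e x i)]⟩]
  by_contra hn
  have hpos : ∀ i, 0 < H i p := fun i => (hH0 i p).lt_of_ne fun h =>
    hn ⟨H i, hH0 i, h.symm, fun x => by rw [hH']; positivity⟩
  have : (comap stoneCechUnit (𝓝 p)).NeBot :=
    comap_neBot_iff_frequently.2 (mem_closure_iff_frequently.1 (denseRange_stoneCechUnit p))
  let w := Ultrafilter.of (comap stoneCechUnit (𝓝 p))
  have hw : Tendsto stoneCechUnit w (𝓝 p) := tendsto_iff_comap.2 (Ultrafilter.of_le _)
  have hy : ∀ i, ∃ y, Tendsto (fun x => e x i) w (𝓝 y) := fun i => by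
    have h1 : ∀ᶠ x in w, H i p / 2 < H i (stoneCechUnit x) :=
      (((H i).continuous.tendsto p).comp hw).eventually (lt_mem_nhds (half_lt_self (hpos i)))
    obtain ⟨y, -, hy⟩ := (isCompact_Icc (a := -(2 / H i p)) (b := 2 / H i p)).ultrafilter_le_nhds
      (w.map fun x => e x i) (le_principal_iff.2 (h1.mono fun x hx => abs_le.1 (by
        rw [hH', lt_div_iff₀ (by positivity)] at hx
        rw [le_div_iff₀ (hpos i)]
        nlinarith [hpos i])))
    exact ⟨y, hy⟩
  choose y hy using hy
  have h2 : Tendsto e w (𝓝 y) := tendsto_pi_nhds.2 hy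
  obtain ⟨x, rfl⟩ := he.isClosed_range.mem_of_tendsto h2
    (Eventually.of_forall fun x => mem_range_self x)
  have h3 : Tendsto id w (𝓝 x) := he.isInducing.tendsto_nhds_iff.2 h2
  exact hp ⟨x, tendsto_nhds_unique ((continuous_stoneCechUnit.tendsto x).comp h3) hw⟩

theorem no_seq_inj {p : StoneCech X} {g : C(StoneCech X, ℝ)} (hg : g p = 0)
    (hg' : ∀ x, 0 < g (stoneCechUnit x)) {y : ℕ → StoneCech X} (hi : Function.Injective y)
    (hne : ∀ n, y n ≠ p) (hy : Tendsto y atTop (𝓝 p)) : False := by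
  have sep : ∀ n, ∃ A B : Set (StoneCech X), IsOpen A ∧ IsOpen B ∧ y n ∈ A ∧
      (∀ m, n < m → y m ∈ B) ∧ Disjoint A B := fun n => by
    have h1 := (hy.comp (tendsto_add_atTop_nat (n + 1))).isCompact_insert_range
    obtain ⟨A, B, a, b, c, d, e⟩ := SeparatedNhds.of_isCompact_isCompact
      (isCompact_singleton (x := y n)) h1 (disjoint_singleton_left.2 (by
        rintro (h | ⟨m, h⟩)
        · exact hne n h
        · have : m + (n + 1) = n := hi h
          omega))
    exact ⟨A, B, a, b, c rfl, fun m hm => d (Or.inr ⟨m - (n + 1), by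
      simp only [Function.comp]; congr 1; omega⟩), e⟩
  choose A B hA hB hyA hyB hAB using sep
  let ε : ℕ → ℝ := fun n => g (y n) + 1 / ((n : ℝ) + 1)
  have hε : Tendsto ε atTop (𝓝 0) := by
    have := ((g.continuous.tendsto p).comp hy).add tendsto_one_div_add_atTop_nhds_zero_nat
    rwa [hg, zero_add] at this
  let W : ℕ → Set (StoneCech X) := fun n => (A n ∩ ⋂ m < n, B m) ∩ {z | g z < ε n}
  have hWo : ∀ n, IsOpen (W n) := fun n =>
    ((hA n).inter ((finite_Iio n).isOpen_biInter fun m _ => hB m)).inter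
      (isOpen_lt g.continuous continuous_const)
  have hyW : ∀ n, y n ∈ W n := fun n => ⟨⟨hyA n, mem_iInter₂.2 fun m hm => hyB m n hm⟩,
    lt_add_of_pos_right (g (y n)) (by positivity : (0 : ℝ) < 1 / ((n : ℝ) + 1))⟩
  have hWd : ∀ m n z, z ∈ W m → z ∈ W n → m = n := fun m n z h1 h2 => by
    by_contra h
    rcases lt_or_gt_of_ne h with h | h
    · exact disjoint_left.1 (hAB m) h1.1.1 (mem_iInter₂.1 h2.1.2 m h)
    · exact disjoint_left.1 (hAB n) h2.1.1 (mem_iInter₂.1 h1.1.2 n h)
  choose w hw0 hw1 hw using fun n => exists_continuous_zero_one_of_isClosed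
    (hWo n).isClosed_compl (isClosed_singleton (x := y n))
    (disjoint_singleton_right.2 fun h => h (hyW n))
  have hs : ∀ n z, w n z ≠ 0 → z ∈ W n := fun n z h => not_not.1 fun h' => h (hw0 n h')
  obtain ⟨F, -, hF⟩ := ext01 (fun x : X => ∑ᶠ n, w (2 * n) (stoneCechUnit x))
    (continuous_finsum (fun n => (w (2 * n)).continuous.comp continuous_stoneCechUnit) fun x => by
      refine ⟨{z | g (stoneCechUnit x) / 2 < g (stoneCechUnit z)},
        (isOpen_lt continuous_const (g.continuous.comp continuous_stoneCechUnit)).mem_nhds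
          (half_lt_self (hg' x)), ?_⟩
      obtain ⟨N, hN⟩ := eventually_atTop.1 (hε.eventually (gt_mem_nhds (half_pos (hg' x))))
      refine (finite_Iio N).subset fun n ⟨z, h1, h2⟩ => ?_
      by_contra hn
      have h3 := hN (2 * n) (by simp only [mem_Iio] at hn; omega)
      exact absurd ((h2.trans (hs _ _ h1).2).trans h3) (lt_irrefl _))
  have key : ∀ m (a : C(StoneCech X, ℝ)),
      (∀ x, stoneCechUnit x ∈ W m → F (stoneCechUnit x) = a (stoneCechUnit x)) →
      F (y m) = a (y m) := fun m a h =>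
    closure_minimal (t := {z | F z = a z}) (by rintro _ ⟨h1, x, rfl⟩; exact h x h1)
      (isClosed_eq F.continuous a.continuous)
      (denseRange_stoneCechUnit.open_subset_closure_inter (hWo m) (hyW m))
  have h1 : ∀ n, F (y (2 * n)) = 1 := fun n => by
    rw [key (2 * n) (w (2 * n)) fun x hx => ?_]
    · exact hw1 _ rfl
    · rw [hF, finsum_eq_single _ n fun m hm => not_not.1 fun h => hm (by
        have := hWd _ _ _ (hs _ _ h) hx
        omega), projIcc_of_mem zero_le_one (hw _ _)]
  have h2 : ∀ n, F (y (2 * n + 1)) = 0 := fun n => by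
    rw [key (2 * n + 1) 0 fun x hx => ?_]
    · rfl
    · rw [hF, finsum_eq_zero_of_forall_eq_zero fun m => not_not.1 fun h => by
        have := hWd _ _ _ (hs _ _ h) hx
        omega]
      simp
  have h3 := (F.continuous.tendsto p).comp hy
  have a := h3.comp (tendsto_atTop_mono (f := id) (g := fun n => 2 * n)
    (fun n => by show n ≤ 2 * n; omega) tendsto_id)
  have b := h3.comp (tendsto_atTop_mono (f := id) (g := fun n => 2 * n + 1)
    (fun n => by show n ≤ 2 * n + 1; omega) tendsto_id)
  have a' := tendsto_nhds_unique (a.congr h1) tendsto_const_nhds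
  have b' := tendsto_nhds_unique (b.congr h2) tendsto_const_nhds
  exact one_ne_zero (a'.symm.trans b')

theorem no_seq {p : StoneCech X} {g : C(StoneCech X, ℝ)} (hg : g p = 0)
    (hg' : ∀ x, 0 < g (stoneCechUnit x)) {y : ℕ → StoneCech X} (hi : (range y).Infinite)
    (hy : Tendsto y atTop (𝓝 p)) : False := by
  have h1 : (range y \ {p}).Infinite := hi.sdiff (finite_singleton p)
  have hz : Function.Injective fun n => (h1.natEmbedding _ n : StoneCech X) :=
    Subtype.val_injective.comp (h1.natEmbedding _).injective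
  refine no_seq_inj hg hg' hz (fun n => (h1.natEmbedding _ n).2.2) ?_
  rw [← Nat.cofinite_eq_atTop] at hy ⊢
  intro N hN
  have h2 : (y '' (y ⁻¹' N)ᶜ).Finite := Finite.image y (hy hN)
  refine (h2.preimage hz.injOn).subset fun n hn => ?_
  obtain ⟨m, hm⟩ := (h1.natEmbedding _ n).2.1
  exact ⟨m, fun h => hn (show (h1.natEmbedding _ n : StoneCech X) ∈ N from hm ▸ h), hm⟩

theorem open_inf (hX : Realcompact.{u, v} X) {U : Set (Rem X)} (hU : IsOpen U) (hne : U.Nonempty) :
    U.Infinite := by
  intro hf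
  obtain ⟨p, hp⟩ := hne
  obtain ⟨g, hg0, hg, hg'⟩ := exists_g hX p.2
  obtain ⟨V, hV, hVU⟩ := isOpen_induced_iff.1
    (hU.sdiff (hf.subset (sdiff_subset (t := {p}))).isClosed)
  have hpV : p.1 ∈ V := hVU.ge ⟨hp, fun h => h.2 rfl⟩
  obtain ⟨C, hC, hCc, hCV⟩ := exists_mem_nhds_isClosed_subset (hV.mem_nhds hpV)
  choose x hx using fun n : ℕ => denseRange_stoneCechUnit.exists_mem_open
    (isOpen_interior.inter (isOpen_lt g.continuous continuous_const))
    (⟨p.1, mem_interior_iff_mem_nhds.2 hC, by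
      show g p.1 < 1 / ((n : ℝ) + 1)
      rw [hg]; positivity⟩ : (interior C ∩ {z | g z < 1 / ((n : ℝ) + 1)}).Nonempty)
  have h1 : Tendsto (fun n => g (stoneCechUnit (x n))) atTop (𝓝 0) :=
    squeeze_zero (fun n => hg0 _) (fun n => (hx n).2.le) tendsto_one_div_add_atTop_nhds_zero_nat
  refine no_seq hg hg' (y := fun n => stoneCechUnit (x n)) (fun hfin => ?_)
    (hCc.isCompact.tendsto_nhds_of_unique_mapClusterPt
      (Eventually.of_forall fun n => interior_subset (hx n).1) fun q hq hq' => ?_)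
  · obtain ⟨_, ⟨n, rfl⟩, h⟩ := (hfin.image g).isClosed.mem_of_tendsto h1
      (Eventually.of_forall fun n => ⟨_, ⟨n, rfl⟩, rfl⟩)
    exact (hg' _).ne' h
  · have h2 : g q = 0 := by
      have h3 := hq'.continuousAt_comp g.continuous.continuousAt
      exact eq_of_nhds_neBot (h3.clusterPt.mono h1)
    have h4 : q ∉ range stoneCechUnit := by
      rintro ⟨z, rfl⟩; exact (hg' z).ne' h2
    have h5 : (⟨q, h4⟩ : Rem X) ∈ U \ (U \ {p}) := hVU.le (hCV hq)
    exact congrArg Subtype.val (not_not.1 fun h => h5.2 ⟨h5.1, h⟩ : (⟨q, h4⟩ : Rem X) = p)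

theorem inj_sel {α : Type u} (U : ℕ → Set α) (h : ∀ n, (U n).Infinite) :
    ∃ x : ℕ → α, Function.Injective x ∧ ∀ n, x n ∈ U n := by
  classical
  choose c hc hc' using fun n (s : Finset α) => (h n).exists_notMem_finset s
  let S : ℕ → Finset α := fun n => Nat.rec ∅ (fun n s => insert (c n s) s) n
  have hm : Monotone S := monotone_nat_of_le_succ fun n => Finset.subset_insert _ _
  have key : ∀ m n, m < n → c m (S m) ≠ c n (S n) := fun m n hmn e => hc' n (S n) (by
    rw [← e]
    exact hm hmn (Finset.mem_insert_self _ _))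
  refine ⟨fun n => c n (S n), fun m n e => ?_, fun n => hc n _⟩
  by_contra h
  rcases lt_or_gt_of_ne h with h | h
  · exact key m n h e
  · exact key n m h e.symm

theorem result (X : Type u) [TopologicalSpace X] [T35Space X] (hX : Realcompact.{u, v} X)
    (_ : ¬ CompactSpace X) : SHD (Rem X) := by
  intro U hU hne
  obtain ⟨x, hi, hx⟩ := inj_sel U fun n => open_inf hX (hU n) (hne n)
  refine ⟨x, hx, fun φ hφ p hp => ?_⟩
  obtain ⟨g, -, hg, hg'⟩ := exists_g hX p.2
  exact no_seq hg hg' (infinite_range_of_injective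
    (Subtype.val_injective.comp (hi.comp hφ.injective)))
    ((continuous_subtype_val.tendsto p).comp hp)

end Pool.Agent.Results.MP_47dce7_gt.Remainder
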